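import Pool.Agent.helper76.RNGP.Local

/-!
# The edges of relative neighbourhood graphs in 3-space pack in two dimensions

The sums `a + b` of the end points of the edges `(a, b)` between two small cells lie on the graph
of a Lipschitz function of two variables, and two of them are about as far apart as the edges are.
Hence, for every finite set `P` of points of 3-space, every point `x` and every `ℓ > 0`, the sum
over the ordered edges `(p, q)` with `dist x p ≤ ℓ` and `ℓ ≤ dist p q ≤ 2 ℓ` of
`(min (gap P p q) (gap P q p) / dist p q) ^ 2` is at most `10 ^ 15`, where `gap P p q` is the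
distance from `p` to the nearest other point of `P` which has an edge of length within a factor
`2` of `dist p q`.
-/

namespace Pool.Agent.Results.MP_d660ba_co.EdgePacking

open Helper5.RNGraph Helper76.RNGP
open scoped Classical in
theorem result (P : Finset (EuclideanSpace ℝ (Fin 3))) (x : EuclideanSpace ℝ (Fin 3))
    (ℓ : ℝ) (hℓ : 0 < ℓ) :
    ∑ e ∈ (P ×ˢ P).filter (fun e => (relNbhd P).Adj e.1 e.2 ∧ dist x e.1 ≤ ℓ ∧
        ℓ ≤ dist e.1 e.2 ∧ dist e.1 e.2 ≤ 2 * ℓ),
      (min (gap P e.1 e.2) (gap P e.2 e.1) / dist e.1 e.2) ^ 2 ≤ 10 ^ 15 :=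
  local_packing P x ℓ hℓ

end Pool.Agent.Results.MP_d660ba_co.EdgePacking
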