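import Pool.Agent.helper76.RNGS.Final

/-!
# The edges of relative neighbourhood graphs in 3-space: orthogonal strips

For every `ε` all but `C L |P|` ordered edges of the relative neighbourhood graph of a finite set
`P` of points of 3-space lie in boundedly many strips: classes of edges `(a, b)` with a fixed
orthonormal frame `u, v, w` such that the direction of the edge is nearly `w`, the neighbours of
`b` near `a` are nearly on the line through `a` of direction `v`, at least `L` of them on both
sides, and the neighbours of `a` near `b` are nearly on the line through `b` of direction `u`, at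
least `L` of them on both sides.
-/

namespace Pool.Agent.Results.MP_d660ba_co.OrthogonalStrips

open Helper5.RNGraph

theorem result (ε : ℝ) (hε : 0 < ε) :
    ∃ (K C : ℕ) (ρ : ℝ) (u v w : Fin K → EuclideanSpace ℝ (Fin 3)), 0 < ρ ∧ ρ ≤ ε ∧
      (∀ i, Orthonormal ℝ ![u i, v i, w i]) ∧
      ∀ (P : Finset (EuclideanSpace ℝ (Fin 3))) (L : ℕ), 1 ≤ L →
        ∃ (X : Finset (EuclideanSpace ℝ (Fin 3) × EuclideanSpace ℝ (Fin 3)))
          (T : Fin K → Finset (EuclideanSpace ℝ (Fin 3) × EuclideanSpace ℝ (Fin 3))),
          X.card ≤ C * L * P.card ∧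
          (∀ a b, (relNbhd P).Adj a b → (a, b) ∈ X ∨ ∃ i, (a, b) ∈ T i) ∧
          ∀ i, Helper76.Strip.IsStrip P ε ρ L (u i) (v i) (w i) (T i) := by
  obtain ⟨K, C, ρ, u, v, w, h1, h2, h3, h4⟩ := Helper76.Strip.main hε
  exact ⟨K, C, ρ, u, v, w, h1, h2, fun i => (h3 i).orthonormal, h4⟩

end Pool.Agent.Results.MP_d660ba_co.OrthogonalStrips
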