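import Pool.Agent.helper76.RNGP.Profile

/-!
# Relative neighbourhood graphs in 3-space: the number of edges and packing numbers

If the distances of the points of `P` are at least `1` and less than `2 ^ J`, and at most `N k`
points of `P` can have mutual distances at least `2 ^ k`, then the relative neighbourhood graph of
`P` has at most `C * ∑ k < J, min (|P| * 2 ^ (2 k / 3)) (N k * 4 ^ k)` edges.
-/

namespace Pool.Agent.Results.MP_d660ba_co.PackingNumbers

open Helper5.RNGraph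

theorem result : ∃ C : ℝ, ∀ (P : Finset (EuclideanSpace ℝ (Fin 3))) (J : ℕ) (N : ℕ → ℕ),
    (∀ p ∈ P, ∀ q ∈ P, p ≠ q → 1 ≤ dist p q ∧ dist p q < 2 ^ J) →
    (∀ k, ∀ Q ⊆ P, (∀ p ∈ Q, ∀ q ∈ Q, p ≠ q → (2 : ℝ) ^ k ≤ dist p q) → Q.card ≤ N k) →
    (numEdges P : ℝ) ≤ C * ∑ k ∈ Finset.range J,
      min ((P.card : ℝ) * ((2 : ℝ) ^ k) ^ ((2 : ℝ) / 3)) ((N k : ℝ) * ((2 : ℝ) ^ k) ^ 2) :=
  Helper76.RNGP.profile

end Pool.Agent.Results.MP_d660ba_co.PackingNumbers
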