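import Pool.Agent.helper5.RNG.Final

/-!
# Relative neighbourhood graphs of points on few planes and spheres

For every finite set `P` of points of 3-space and every family of `k` planes and spheres the
relative neighbourhood graph of `P` has at most `637875 k |P| + e3(m)` edges, where `m` is the
number of points of `P` that lie on none of the surfaces.
-/

namespace Pool.Agent.Results.MP_d660ba_co.PlanesAndSpheres

open Helper5.RNGraph
open scoped Classical in
theorem result (P : Finset (EuclideanSpace ℝ (Fin 3))) (k : ℕ)
    (S : Fin k → Set (EuclideanSpace ℝ (Fin 3)))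
    (hS : ∀ i, IsPlane (S i) ∨ IsSphere (S i)) :
    numEdges P ≤ 637875 * k * P.card + e3 (P.filter (fun p => ∀ i, p ∉ S i)).card := by
  apply Helper5.RNG.main P k S hS _ (Finset.filter_subset _ _)
  intro p hp hp0
  by_contra hcon
  push Not at hcon
  exact hp0 (Finset.mem_filter.2 ⟨hp, hcon⟩)

end Pool.Agent.Results.MP_d660ba_co.PlanesAndSpheres
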